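import Pool.Agent.X12.Pf
import Pool.Agent.Helper929.Pfaffian

/-!
# The Legendre symbol of the square root of the skew Legendre determinant `D_p^(1)`

Modulo `p` the matrix is `[(x_j - x_k) ^ (n + 1)]` with `x_j = j²` and `n = (p - 1) / 2 = 2 h`, and since the
`x_j` are `n`-th roots of unity this is `V K Vᵀ` with the Vandermonde matrix `V` and a skew-symmetric
matrix `K` with one nonzero entry in every row.  Hence `s_p ≡ ± det V ∏ c_i`, and the symbols of the
binomial coefficients `c_i` are expressed through factorials.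
-/

set_option autoImplicit false

namespace Pool.Agent.Results.MP_6c59e0_nt.SquareRootSymbol

open Finset Pool.Agent.X12

/-- The matrix with the entries `(j² - k²) (j² - k² / p)`, `1 ≤ j, k ≤ (p - 1) / 2`. -/
def A (p : ℕ) [Fact p.Prime] : Matrix (Fin ((p - 1) / 2)) (Fin ((p - 1) / 2)) ℤ :=
  Matrix.of fun j k => (((j : ℤ) + 1) ^ 2 - ((k : ℤ) + 1) ^ 2) *
    legendreSym p (((j : ℤ) + 1) ^ 2 - ((k : ℤ) + 1) ^ 2)

/-- The number of the integers `0 < k < p / 4` with `(k / p) = -1`. -/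
def N (p : ℕ) [Fact p.Prime] : ℕ :=
  ((Finset.Ico 1 p).filter (fun k : ℕ => 4 * k < p ∧ legendreSym p (k : ℤ) = -1)).card

/-- the coefficients -/
def c {R : Type*} [Ring R] (n i : ℕ) : R :=
  (-1) ^ i * ((n + 1).choose (i + 1) : R) + if i = 0 then 1 else 0

lemma poly {R : Type*} [CommRing R] {h : ℕ} (hh : 0 < h) (x y : R) (hx : x ^ (h + h) = 1)
    (hy : y ^ (h + h) = 1) :
    (x * y) ^ (h - 1) * (x - y) ^ (h + h + 1) = ∑ i ∈ range h, c (h + h) i *
      (x ^ (h + i) * y ^ (h - 1 - i) - x ^ (h - 1 - i) * y ^ (h + i)) := by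
  obtain ⟨g, rfl⟩ : ∃ g, h = g + 1 := ⟨h - 1, by omega⟩
  set n : ℕ := g + 1 + (g + 1) with hn
  rw [sub_pow, Finset.sum_range_succ, Finset.sum_range_succ']
  have h1 : ∀ f : ℕ → R, ∑ k ∈ range n, f (k + 1) =
      ∑ i ∈ range (g + 1), (f (i + 1) + f (n - i)) := by
    intro f
    rw [hn, Finset.sum_range_add, Finset.sum_add_distrib]
    congr 1
    rw [← Finset.sum_range_reflect]
    refine Finset.sum_congr rfl fun i hi => ?_
    have := Finset.mem_range.1 hi
    congr 1
    omega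
  rw [h1 (fun m => (-1) ^ (m + (n + 1)) * x ^ m * y ^ (n + 1 - m) * ((n + 1).choose m : R))]
  have h2 : ∑ i ∈ range (g + 1), c n i *
      (x ^ (g + 1 + i) * y ^ (g + 1 - 1 - i) - x ^ (g + 1 - 1 - i) * y ^ (g + 1 + i)) =
      ∑ i ∈ range (g + 1), ((-1) ^ i * ((n + 1).choose (i + 1) : R)) *
      (x ^ (g + 1 + i) * y ^ (g - i) - x ^ (g - i) * y ^ (g + 1 + i)) +
      (x ^ (g + 1) * y ^ g - x ^ g * y ^ (g + 1)) := by
    have e : ∀ i ∈ range (g + 1), c n i *
      (x ^ (g + 1 + i) * y ^ (g + 1 - 1 - i) - x ^ (g + 1 - 1 - i) * y ^ (g + 1 + i)) =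
      ((-1) ^ i * ((n + 1).choose (i + 1) : R)) *
      (x ^ (g + 1 + i) * y ^ (g - i) - x ^ (g - i) * y ^ (g + 1 + i)) +
      (if i = 0 then (x ^ (g + 1) * y ^ g - x ^ g * y ^ (g + 1)) else 0) := by
      intro i _
      unfold c
      rw [Nat.add_sub_cancel]
      split_ifs with h
      · rw [h]; simp only [add_zero, Nat.sub_zero]; ring
      · ring
    rw [Finset.sum_congr rfl e, Finset.sum_add_distrib, Finset.sum_ite_eq', if_pos (by simp)]
  have hev : (-1 : R) ^ n = 1 := Even.neg_one_pow ⟨g + 1, hn⟩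
  have h3 : ∀ i ∈ range (g + 1), (x * y) ^ g *
      ((-1) ^ (i + 1 + (n + 1)) * x ^ (i + 1) * y ^ (n + 1 - (i + 1)) * ((n + 1).choose (i + 1) : R) +
      (-1) ^ (n - i + (n + 1)) * x ^ (n - i) * y ^ (n + 1 - (n - i)) *
        ((n + 1).choose (n - i) : R)) =
      (-1) ^ i * ((n + 1).choose (i + 1) : R) *
        (x ^ (g + 1 + i) * y ^ (g - i) - x ^ (g - i) * y ^ (g + 1 + i)) := by
    intro i hi
    obtain ⟨t, ht⟩ : ∃ t, g = i + t := ⟨g - i, by have := Finset.mem_range.1 hi; omega⟩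
    have e1 : y ^ g * y ^ (n + 1 - (i + 1)) = y ^ t := by
      rw [← pow_add, show g + (n + 1 - (i + 1)) = t + n by omega, pow_add, hy, mul_one]
    have e2 : x ^ g * x ^ (n - i) = x ^ t := by
      rw [← pow_add, show g + (n - i) = t + n by omega, pow_add, hx, mul_one]
    have e3 : n + 1 - (n - i) = i + 1 := by omega
    have e4 : (n + 1).choose (n - i) = (n + 1).choose (i + 1) :=
      Nat.choose_symm_of_eq_add (by omega)
    have e5 : (-1 : R) ^ (i + 1 + (n + 1)) = (-1) ^ i := by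
      rw [show i + 1 + (n + 1) = i + n + 2 by ring, pow_add, pow_add, hev]; ring
    have e6 : (-1 : R) ^ (n - i + (n + 1)) = -(-1) ^ i := by
      have e7 : (-1 : R) ^ (n - i) * (-1) ^ i = 1 := by
        rw [← pow_add, show n - i + i = n by omega, hev]
      have e8 : (-1 : R) ^ i * (-1) ^ i = 1 := by rw [← mul_pow]; simp
      rw [pow_add, pow_add, hev]
      linear_combination (-(-1 : R) ^ i) * e7 + (-1) ^ (n - i) * e8
    rw [e3, e4, e5, e6, show g - i = t by omega, mul_pow]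
    linear_combination (-1 : R) ^ i * ((n + 1).choose (i + 1) : R) * x ^ g * x ^ (i + 1) * e1 -
      (-1 : R) ^ i * ((n + 1).choose (i + 1) : R) * y ^ g * y ^ (i + 1) * e2
  rw [h2, Nat.add_sub_cancel, mul_add, mul_add, Finset.mul_sum, Finset.sum_congr rfl h3]
  have e9 : y ^ (n + 1) = y := by rw [pow_succ, hy, one_mul]
  have e10 : x ^ (n + 1) = x := by rw [pow_succ, hx, one_mul]
  have e11 : (-1 : R) ^ (n + 1) = -1 := by rw [pow_succ, hev, one_mul]
  rw [zero_add, pow_zero, Nat.sub_zero, Nat.sub_self, pow_zero, Nat.choose_zero_right,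
    Nat.choose_self, e9, e10, pow_add (-1 : R) (n + 1) (n + 1), e11, mul_pow, pow_succ, pow_succ]
  push_cast
  ring

section

variable {p : ℕ} [Fact p.Prime]

lemma N_eq {h : ℕ} (hp : p = 4 * h + 1) : N p =
    ((Finset.Icc 1 h).filter (fun k : ℕ => legendreSym p (k : ℤ) = -1)).card := by
  unfold N
  congr 1
  ext k
  rw [mem_filter, mem_filter, mem_Ico, mem_Icc]
  constructor
  · rintro ⟨⟨h1, h2⟩, h3, h4⟩
    exact ⟨⟨h1, by omega⟩, h4⟩
  · rintro ⟨⟨h1, h2⟩, h4⟩
    exact ⟨⟨h1, by omega⟩, by omega, h4⟩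

lemma qc_three (hp : p % 4 = 1) : qc p 3 = legendreSym 3 p := by
  have : Fact (Nat.Prime 3) := ⟨Nat.prime_three⟩
  have h1 := legendreSym.quadratic_reciprocity_one_mod_four (p := p) (q := 3) hp (by norm_num)
  have h2 : legendreSym p ((3 : ℕ) : ℤ) = qc p 3 := by rw [legendre_eq]; push_cast; rfl
  rw [← h2, h1]

lemma qc_choose {N k : ℕ} (hk : k ≤ N) (hN : N < p) :
    qc p ((N.choose k : ℕ) : ZMod p) = qc p ((N.factorial : ℕ) : ZMod p) *
      (qc p ((k.factorial : ℕ) : ZMod p) * qc p (((N - k).factorial : ℕ) : ZMod p)) := by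
  have h1 := Nat.choose_mul_factorial_mul_factorial hk
  have h2 : ((N.choose k : ℕ) : ZMod p) * ((k.factorial : ℕ) : ZMod p) *
      (((N - k).factorial : ℕ) : ZMod p) = ((N.factorial : ℕ) : ZMod p) := by
    rw [← h1]; push_cast; ring
  rw [← h2, qc_mul, qc_mul]
  have e1 := qc_sq (fact_ne_zero (p := p) (t := k) (by omega))
  have e2 := qc_sq (fact_ne_zero (p := p) (t := N - k) (by omega))
  linear_combination -(qc p ((N.choose k : ℕ) : ZMod p) * (qc p ((k.factorial : ℕ) : ZMod p) *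
    qc p ((k.factorial : ℕ) : ZMod p))) * e2 - qc p ((N.choose k : ℕ) : ZMod p) * e1

lemma qc_neg_pow (hp : p % 4 = 1) (i : ℕ) : qc p ((-1) ^ i) = 1 := by
  rw [qc_pow, qc_neg_one_of_one hp, one_pow]

/-- The product of the symbols of the coefficients. -/
lemma prod_c {n h : ℕ} (hn : p = 2 * n + 1) (hh : n = h + h) (hh0 : 0 < h) :
    ∏ i ∈ range h, qc p (c n i) = qc p 3 * qc p ((n.factorial : ℕ) : ZMod p) *
      qc p ((h.factorial : ℕ) : ZMod p) := by
  have hp : p % 4 = 1 := by omega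
  obtain ⟨g, rfl⟩ : ∃ g, h = g + 1 := ⟨h - 1, by omega⟩
  have h20 : (2 : ZMod p) ≠ 0 := by
    intro h2
    have : ((2 : ℕ) : ZMod p) = 0 := by exact_mod_cast h2
    rw [ZMod.natCast_eq_zero_iff] at this
    have := Nat.le_of_dvd (by norm_num) this
    omega
  have hq2 := qc_two hn hh
  have hqn := qc_fact_half hn hh hh0
  have h22 := qc_sq h20
  have hp0 : ((2 * n + 1 : ℕ) : ZMod p) = 0 := by rw [← hn]; exact ZMod.natCast_self p
  -- `(n + 1)!`
  have hw : qc p (((n + 1).factorial : ℕ) : ZMod p) = 1 := by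
    have e1 : qc p ((n : ZMod p) + 1) = qc p 2 := by
      have e2 : (2 : ZMod p) * ((n : ZMod p) + 1) = 1 := by
        push_cast at hp0
        linear_combination hp0
      have e3 := congrArg (qc p) e2
      rw [qc_mul, qc_one] at e3
      calc qc p ((n : ZMod p) + 1) = (qc p 2 * qc p 2) * qc p ((n : ZMod p) + 1) := by
            rw [h22, one_mul]
        _ = qc p 2 * (qc p 2 * qc p ((n : ZMod p) + 1)) := by ring
        _ = _ := by rw [e3, mul_one]
    rw [Nat.factorial_succ]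
    push_cast
    rw [qc_mul, e1, hqn, ← hq2, h22]
  -- the first coefficient
  have hc0 : qc p (c n 0) = qc p 2 * qc p 3 := by
    have e2 : (2 : ZMod p) * c n 0 = 3 := by
      unfold c
      rw [if_pos rfl, pow_zero, one_mul, zero_add, Nat.choose_one_right]
      push_cast at hp0 ⊢
      linear_combination hp0
    have e3 := congrArg (qc p) e2
    rw [qc_mul] at e3
    calc qc p (c n 0) = (qc p 2 * qc p 2) * qc p (c n 0) := by rw [h22, one_mul]
      _ = qc p 2 * (qc p 2 * qc p (c n 0)) := by ring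
      _ = _ := by rw [e3]
  -- the other coefficients
  have hci : ∀ i ∈ range g, qc p (c n (i + 1)) =
      qc p (((i + 2).factorial : ℕ) : ZMod p) * qc p (((n - 1 - i).factorial : ℕ) : ZMod p) := by
    intro i hi
    have := Finset.mem_range.1 hi
    unfold c
    rw [if_neg (by omega), add_zero, qc_mul, qc_neg_pow hp, one_mul,
      qc_choose (by omega) (by omega), hw, one_mul, show n + 1 - (i + 1 + 1) = n - 1 - i by omega]
  rw [Finset.prod_range_succ', hc0, Finset.prod_congr rfl hci, Finset.prod_mul_distrib]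
  -- the product of all factorials
  have hall := prod_qc_fact (p := p) (h := g + 1) (by omega) h20
  rw [show 2 * (g + 1) = n by omega] at hall
  have hsplit : ∏ t ∈ range n, qc p ((t.factorial : ℕ) : ZMod p) =
      (∏ i ∈ range g, qc p (((i + 2).factorial : ℕ) : ZMod p)) *
      ∏ i ∈ range g, qc p (((n - 1 - i).factorial : ℕ) : ZMod p) := by
    rw [show n = (1 + 1 + g) + g by omega, Finset.prod_range_add, Finset.prod_range_add,
      Finset.prod_range_add]
    congr 1
    · simp only [Finset.prod_range_one, Nat.factorial_zero, Nat.factorial_one, add_zero,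
        Nat.cast_one, qc_one, one_mul]
      refine Finset.prod_congr rfl fun i _ => ?_
      rw [show 1 + 1 + i = i + 2 by ring]
    · rw [← Finset.prod_range_reflect]
      refine Finset.prod_congr rfl fun i hi => ?_
      have := Finset.mem_range.1 hi
      rw [show 1 + 1 + g + (g - 1 - i) = 1 + 1 + g + g - 1 - i by omega]
  rw [← hsplit, hall]
  have h2h : qc p 2 ^ (g + 1) * qc p 2 = 1 := by
    rw [hq2, ← pow_mul, ← pow_add, show (g + 1) * (g + 1) + (g + 1) = (g + 1) * (g + 2) by ring]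
    exact Even.neg_one_pow (Nat.even_mul_succ_self (g + 1))
  linear_combination (qc p ((n.factorial : ℕ) : ZMod p) *
    qc p (((g + 1).factorial : ℕ) : ZMod p) * qc p 3) * h2h

end

/-- The determinant is the square of an integer. -/
lemma exists_root (p : ℕ) [Fact p.Prime] (hp : p % 4 = 1) : ∃ s : ℤ, s ^ 2 = (A p).det := by
  refine ⟨_, Helper929.pf_sq_int (A p) fun i j => ?_⟩
  have h1 : legendreSym p (((i : ℤ) + 1) ^ 2 - ((j : ℤ) + 1) ^ 2) =
      legendreSym p (((j : ℤ) + 1) ^ 2 - ((i : ℤ) + 1) ^ 2) := by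
    rw [legendre_eq, legendre_eq, show ((((i : ℤ) + 1) ^ 2 - ((j : ℤ) + 1) ^ 2 : ℤ) : ZMod p) =
      -((((j : ℤ) + 1) ^ 2 - ((i : ℤ) + 1) ^ 2 : ℤ) : ZMod p) by push_cast; ring, qc_neg,
      qc_neg_one_of_one hp, one_mul]
  change (((i : ℤ) + 1) ^ 2 - ((j : ℤ) + 1) ^ 2) * legendreSym p (((i : ℤ) + 1) ^ 2 - ((j : ℤ) + 1) ^ 2)
    = -((((j : ℤ) + 1) ^ 2 - ((i : ℤ) + 1) ^ 2) * legendreSym p (((j : ℤ) + 1) ^ 2 - ((i : ℤ) + 1) ^ 2))
  rw [h1]
  ring

/-- **Q1.**  For all primes `p ≡ 1 (mod 4)` the determinant `D_p ^ (1)` is the square of an integer, and if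
`s_p ^ 2 = D_p ^ (1)` then `(s_p / p) = (-1) ^ N(p) (p / 3)`. -/
theorem result (p : ℕ) [Fact p.Prime] (hp : p % 4 = 1) :
    (∃ s : ℤ, s ^ 2 = (A p).det) ∧
    ∀ s : ℤ, s ^ 2 = (A p).det → legendreSym p s = (-1) ^ N p * legendreSym 3 p := by
  refine ⟨exists_root p hp, fun s hs => ?_⟩
  have hpr := (Fact.out : p.Prime)
  obtain ⟨h, hh⟩ : ∃ h, p = 4 * h + 1 := ⟨p / 4, by omega⟩
  have hh0 : 0 < h := by
    rcases Nat.eq_zero_or_pos h with h0 | h0
    · exfalso
      rw [h0] at hh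
      exact hpr.one_lt.ne' (by omega)
    · exact h0
  have hn' : (p - 1) / 2 = h + h := by omega
  have hn : p = 2 * ((p - 1) / 2) + 1 := by omega
  have h1 := qc_sqrt_det (p := p) hn hn' 1 (h - 1) (c ((p - 1) / 2)) (by
    intro x y hx hy
    rw [hn'] at hx hy ⊢
    exact poly hh0 x y hx hy) (A p) (fun j k => by rw [pow_one]; rfl) s hs
  rw [h1, prod_c hn hn' hh0, qc_three hp, qc_fact_count (h := h) (by omega), ← N_eq hh]
  have h2 := qc_sq (fact_ne_zero (p := p) (t := (p - 1) / 2) (by omega))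
  linear_combination (legendreSym 3 p * (-1) ^ N p) * h2

end Pool.Agent.Results.MP_6c59e0_nt.SquareRootSymbol
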